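import Pool.Agent.MP_c1891a_nt.G43.Spec

/-
Saturated sublattices, torsion characters, and the extension by free variables.
-/

namespace Pool.Agent.MP_c1891a_nt.G43

open Finset Module H43

/-- the saturation of a sublattice. -/
def satClos {Λ : Type} [AddCommGroup Λ] (W : Submodule ℤ Λ) : Submodule ℤ Λ where
  carrier := {l | ∃ k : ℤ, k ≠ 0 ∧ k • l ∈ W}
  add_mem' := by
    rintro a b ⟨k, hk, ha⟩ ⟨k', hk', hb⟩
    refine ⟨k * k', mul_ne_zero hk hk', ?_⟩
    rw [smul_add]
    refine W.add_mem ?_ ?_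
    · rw [mul_comm, mul_smul]; exact W.smul_mem _ ha
    · rw [mul_smul]; exact W.smul_mem _ hb
  zero_mem' := ⟨1, one_ne_zero, by simp⟩
  smul_mem' := by
    rintro c a ⟨k, hk, ha⟩
    exact ⟨k, hk, by rw [smul_comm]; exact W.smul_mem _ ha⟩

theorem sSat : SSat := by
  classical
  intro Λ ι _ _ _ I m
  refine ⟨⟨(I ×ˢ I).powerset.image fun E : Finset (ι × ι) =>
    satClos (Submodule.span ℤ ((fun p : ι × ι => m p.1 - m p.2) '' E)), fun W hW => ?_,
    fun V hV => ⟨_, mem_image_of_mem _ (mem_powerset.2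
      (filter_subset (fun p : ι × ι => m p.1 - m p.2 ∈ V) _)), ?_, fun i hi k hk h => ?_⟩⟩,
    fun W hW => ?_⟩
  · obtain ⟨E, -, rfl⟩ := mem_image.1 hW
    rintro k l hk ⟨k', hk', h⟩
    exact ⟨k' * k, mul_ne_zero hk' hk, by rwa [mul_smul]⟩
  · rintro l ⟨k, hk, h⟩
    refine hV k l hk (Submodule.span_le.2 ?_ h)
    rintro _ ⟨p, hp, rfl⟩
    exact (mem_filter.1 hp).2
  · refine ⟨1, one_ne_zero, ?_⟩
    rw [one_smul]
    exact Submodule.subset_span ⟨(i, k), mem_filter.2 ⟨mem_product.2 ⟨hi, hk⟩, h⟩, rfl⟩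
  · have h1 : Module.IsTorsionFree ℤ (Λ ⧸ W) := by
      refine Module.IsTorsionFree.of_smul_eq_zero fun k a h => ?_
      obtain ⟨l, rfl⟩ := W.mkQ_surjective a
      by_cases hk : k = 0
      · exact Or.inl hk
      · rw [← map_smul] at h
        exact Or.inr ((Submodule.Quotient.mk_eq_zero W).2
          (hW k l hk ((Submodule.Quotient.mk_eq_zero W).1 h)))
    have h2 : Module.Free ℤ (Λ ⧸ W) := inferInstance
    have h3 : finrank ℤ W + finrank ℤ (Λ ⧸ W) = finrank ℤ Λ := by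
      rw [add_comm]; exact W.finrank_quotient_add_finrank
    refine ⟨h2, h3, fun l hl => ?_, fun h => ?_⟩
    · let b := Module.Free.chooseBasis ℤ (Λ ⧸ W)
      have h4 : ¬ ∀ i, b.coord i (W.mkQ l) = 0 := fun h =>
        hl ((Submodule.Quotient.mk_eq_zero W).1 (b.forall_coord_eq_zero_iff.1 h))
      obtain ⟨i, hi⟩ := not_forall.1 h4
      refine ⟨b.coord i ∘ₗ W.mkQ, hi, fun w hw => ?_⟩
      rw [LinearMap.comp_apply, W.mkQ_apply, (Submodule.Quotient.mk_eq_zero W).2 hw, map_zero]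
    · have := Submodule.Quotient.nontrivial_iff.2 h
      have h4 : 0 < finrank ℤ (Λ ⧸ W) := Module.finrank_pos
      omega

theorem sRepC : SRepC := by
  intro Λ _ χ n b hN
  have hξ := Complex.isPrimitiveRoot_exp (orderOf χ) hN.ne'
  generalize Complex.exp (2 * Real.pi * Complex.I / (orderOf χ : ℕ)) = ξ at hξ
  have : NeZero (orderOf χ) := ⟨hN.ne'⟩
  choose a _ ha using fun i => hξ.eq_pow_of_pow_eq_one (ξ := χ (b i))
    (by rw [← AddChar.pow_apply, pow_orderOf_eq_one, AddChar.one_apply])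
  have h1 : ∀ l, χ l = ξ ^ b.constr ℤ (fun i => (a i : ℤ)) l := fun l => by
    induction b.mem_span l using Submodule.span_induction with
    | mem x hx => obtain ⟨i, rfl⟩ := hx; rw [b.constr_basis, zpow_natCast, ha]
    | zero => simp
    | add x y _ _ hx hy => rw [χ.map_add_eq_mul, map_add, zpow_add₀ (hξ.ne_zero hN.ne'), hx, hy]
    | smul k x _ hx => rw [χ.map_zsmul_eq_zpow, map_smul, hx, smul_eq_mul, mul_comm, zpow_mul]
  refine ⟨ξ, _, hξ, h1, fun κ hκ => ?_⟩
  rw [← Int.dvd_natAbs, Int.natCast_dvd_natCast]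
  refine orderOf_dvd_of_pow_eq_one (AddChar.ext _ _ fun l => ?_)
  rw [AddChar.pow_apply, AddChar.one_apply, h1, ← zpow_natCast, ← zpow_mul,
    hξ.zpow_eq_one_iff_dvd]
  have h2 : (orderOf χ : ℤ) ∣ κ * b.constr ℤ (fun i => (a i : ℤ)) l := by
    induction b.mem_span l using Submodule.span_induction with
    | mem x hx => obtain ⟨i, rfl⟩ := hx; exact hκ i
    | zero => simp
    | add x y _ _ hx hy => rw [map_add, mul_add]; exact hx.add hy
    | smul k x _ hx => rw [map_smul, smul_eq_mul, mul_left_comm]; exact hx.mul_left k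
  rw [mul_comm, Int.natCast_natAbs]
  rcases abs_choice κ with h | h
  · rwa [h]
  · rwa [h, neg_mul, dvd_neg]

theorem satExt {Λ F F' : Type} [AddCommGroup Λ] [Field F] [Algebra ℂ F] [Field F'] [Algebra ℂ F']
    [Algebra F F'] [IsScalarTower ℂ F F'] (W : Submodule ℤ Λ) {q n : ℕ}
    (f : Basis (Fin q) ℤ (Λ ⧸ W)) (X : Fin q → F') (hX : AlgebraicIndependent F X)
    (y : AddChar W F) (hy : TD y n) :
    ∃ x : AddChar Λ F', (∀ w : W, x w = algebraMap F F' (y w)) ∧ TD x (q + n) := by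
  have := Module.Free.of_basis f
  obtain ⟨s, hs⟩ := LinearMap.exists_rightInverse_of_surjective W.mkQ W.range_mkQ
  have hs' : ∀ a, W.mkQ (s a) = a := fun a => LinearMap.congr_fun hs a
  have hm : ∀ l, (LinearMap.id - s ∘ₗ W.mkQ : Λ →ₗ[ℤ] Λ) l ∈ W := fun l => by
    rw [← Submodule.Quotient.mk_eq_zero, ← W.mkQ_apply, LinearMap.sub_apply, map_sub,
      LinearMap.comp_apply, hs', LinearMap.id_apply, sub_self]
  set π := LinearMap.codRestrict W _ hm with hπ
  have hπ1 : ∀ l, (π l : Λ) = l - s (W.mkQ l) := fun l => rfl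
  have hX0 : ∀ i, X i ≠ 0 := fun i => hX.ne_zero i
  refine ⟨⟨fun l => algebraMap F F' (y (π l)) * ∏ i, X i ^ f.repr (W.mkQ l) i, by simp,
    fun a b => ?_⟩, fun w => ?_, ?_⟩
  · simp only [map_add, y.map_add_eq_mul, map_mul, Finsupp.add_apply, zpow_add₀ (hX0 _),
      prod_mul_distrib]
    ring
  · have h1 : W.mkQ w = 0 := (Submodule.Quotient.mk_eq_zero W).2 w.2
    have h2 : π w = w := Subtype.ext (by rw [hπ1, h1, map_zero, sub_zero])
    change algebraMap F F' (y (π w)) * ∏ i, X i ^ f.repr (W.mkQ w) i = _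
    simp [h1, h2]
  · obtain ⟨l, hl⟩ := hy
    refine ⟨Sum.elim (fun i => s (f i)) (fun k => (l k : Λ)) ∘ finSumFinEquiv.symm, ?_⟩
    have h1 := (hl.sumElim_comp hX).comp _ finSumFinEquiv.symm.injective
    refine (congrArg (fun z : Fin (q + n) → F' => AlgebraicIndependent ℂ z)
      (funext fun k => ?_)).mp h1
    simp only [Function.comp_apply]
    generalize finSumFinEquiv.symm k = t
    change _ = algebraMap F F' (y (π _)) * ∏ i, X i ^ f.repr (W.mkQ _) i
    rcases t with i | k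
    · have h2 : π (s (f i)) = 0 := Subtype.ext (by rw [hπ1, hs', sub_self]; rfl)
      rw [Sum.elim_inl, Sum.elim_inl, h2, hs', f.repr_self, prod_eq_single i
        (fun j _ hj => by rw [Finsupp.single_eq_of_ne hj, zpow_zero]) (by simp)]
      simp
    · have h1 : W.mkQ (l k) = 0 := (Submodule.Quotient.mk_eq_zero W).2 (l k).2
      have h2 : π (l k) = l k := Subtype.ext (by rw [hπ1, h1, map_zero, sub_zero])
      simp [h1, h2]

theorem sExt (h : SSat) : SExt := by
  classical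
  intro Λ _ _ _ S W hW hG F _ _ y hy n hn
  obtain ⟨h1, h2, -⟩ := (h Λ Unit ∅ fun _ => 0).2 W hW
  obtain ⟨x, hx, hx'⟩ := satExt (F' := FractionRing (MvPolynomial (Fin (finrank ℤ (Λ ⧸ W))) F)) W
    (Module.finBasis ℤ (Λ ⧸ W)) _ ((MvPolynomial.algebraicIndependent_X _ F).map'
      (f := IsScalarTower.toAlgHom F _ _) (IsFractionRing.injective _ _)) y hn
  have h3 := hG _ x (fun j => ?_) _ hx'
  · omega
  · have h4 := congrArg (fun t => algebraMap F _ t * x j.2.out) (hy j)
    simp only [Sys.cs, map_sum, map_mul, map_zero, zero_mul, sum_mul] at h4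
    refine Eq.trans (sum_congr (by convert rfl) fun i hi => ?_) h4
    have h5 : W.mkQ (S.m i) = j.2 := congrArg Prod.snd (mem_filter.1 hi).2
    rw [← hx, mul_assoc, ← x.map_add_eq_mul, ← IsScalarTower.algebraMap_apply, ← h5]
    exact congrArg _ (congrArg x (sub_add_cancel _ _).symm)

end Pool.Agent.MP_c1891a_nt.G43
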